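import Pool.Agent.Y178.HP.Ex

/-!
A counterexample to `dim HP^{DR}_i(X) = dim H^{dim X̃ - i}(X̃)` with `i = 0`: the (non-normal)
irreducible affine Poisson surface `X = Spec (ℂ + (x, y) ^ 2)` with its symplectic resolution
`X̃ = 𝔸² → X`.
-/

set_option autoImplicit false

namespace Pool.Agent.Results.MP_fc9dee_ag.ZerothHomology

open Pool.Agent.TH212 Pool.Agent.Y178.HP

/-- There are an irreducible affine Poisson variety `X = Spec A` and a symplectic resolution
`ρ : X̃ = 𝔸² → X`, where `A` is embedded by `ρ` in `ℂ[x, y]` as the algebra of all `f` with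
`∂_x f (0) = ∂_y f (0) = 0` and `ℂ[x, y]` carries the symplectic bracket
`{f, g} = ∂_y f ∂_x g - ∂_x f ∂_y g`, such that `dim X̃ = 2`, `A / {A, A}` is one-dimensional, for
every closed embedding `i : X → V` into a smooth affine variety `V` the space
`HP^{DR}_0(X) = M(X, i) ⊗_{D(V)} O(V)` is one-dimensional, but `H²(X̃(ℂ); ℂ) = 0`. -/
theorem result :
    ∃ (A : Type) (_ : CommRing A) (_ : Algebra ℂ A) (P : PoissonBracket A)
      (Q : PoissonBracket (MvPolynomial (Fin 2) ℂ)) (ρ : A →ₐ[ℂ] MvPolynomial (Fin 2) ℂ),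
      (∀ f, (∃ a, ρ a = f) ↔ ∀ i, MvPolynomial.coeff (Finsupp.single i 1) f = 0) ∧
      (∀ f g, Q.br f g = MvPolynomial.pderiv 1 f * MvPolynomial.pderiv 0 g -
        MvPolynomial.pderiv 0 f * MvPolynomial.pderiv 1 g) ∧
      IsDomain A ∧ Algebra.FiniteType ℂ A ∧ IsSymplecticResolution P Q ρ ∧
      ringKrullDim (MvPolynomial (Fin 2) ℂ) = 2 ∧ dimHP0 P = 1 ∧
      (∀ (B : Type) [CommRing B] [Algebra ℂ B] [Algebra.Smooth ℂ B] (i : B →ₐ[ℂ] A),
        Function.Surjective i → dimHPDR0 P i = 1) ∧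
      Subsingleton (cohomology 2 (Points (MvPolynomial (Fin 2) ℂ))) := by
  refine ⟨OX, inferInstance, inferInstance, PO, PR, OX.val, fun f => ⟨?_, fun h => ?_⟩, pb_apply,
    inferInstance, finiteType_OX, resolution, ?_, dimHP0_PO, fun B _ _ _ i hi => ?_, ?_⟩
  · rintro ⟨a, rfl⟩ i
    have h := a.2 i
    rw [MvPolynomial.constantCoeff_eq, MvPolynomial.coeff_pderiv] at h
    simpa using h
  · refine ⟨⟨f, fun i => ?_⟩, rfl⟩
    rw [MvPolynomial.constantCoeff_eq, MvPolynomial.coeff_pderiv, zero_add, h i, zero_mul]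
  · rw [MvPolynomial.ringKrullDim_of_isNoetherianRing, ringKrullDim_eq_zero_of_field]
    simp
  · rw [dimHPDR0_eq PO i hi, dimHP0_PO]
  · exact ModuleCat.subsingleton_of_isZero (isZero_cohomology _ (by norm_num))

end Pool.Agent.Results.MP_fc9dee_ag.ZerothHomology
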